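import Pool.Agent.Helper77K9.SobB.Sob

set_option autoImplicit false

open Filter Topology Set

namespace Pool.Agent.Helper77K9.SobB

universe u v

variable {𝕜 : Type v} [RCLike 𝕜] {E : Type u} [NormedAddCommGroup E] [NormedSpace 𝕜 E]

/-- Along a biorthogonal bounded sequence the functionals tend to zero pointwise on the closed
span. -/
theorem null_on_span (x : ℕ → E)
    (φ : ℕ → (Submodule.span 𝕜 (range x)).topologicalClosure →L[𝕜] 𝕜)
    (C : ℝ) (hC : ∀ n, ‖φ n‖ ≤ C)
    (hφ : ∀ i j, ∀ h : x j ∈ (Submodule.span 𝕜 (range x)).topologicalClosure,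
      φ i ⟨x j, h⟩ = if i = j then 1 else 0)
    (y : (Submodule.span 𝕜 (range x)).topologicalClosure) :
    Tendsto (fun n => φ n y) atTop (𝓝 0) := by
  have hC0 : 0 ≤ C := (norm_nonneg _).trans (hC 0)
  have hle : Submodule.span 𝕜 (range x) ≤ (Submodule.span 𝕜 (range x)).topologicalClosure :=
    Submodule.le_topologicalClosure _
  -- finitely supported on the span
  have hfin : ∀ z (hz : z ∈ Submodule.span 𝕜 (range x)), ∀ᶠ n in atTop, φ n ⟨z, hle hz⟩ = 0 := by
    intro z hz
    induction hz using Submodule.span_induction with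
    | mem z h =>
      obtain ⟨j, rfl⟩ := h
      filter_upwards [eventually_gt_atTop j] with n hn
      rw [hφ, if_neg (by omega)]
    | zero =>
      refine Eventually.of_forall fun n => ?_
      have : (⟨0, hle (Submodule.zero_mem _)⟩ :
        (Submodule.span 𝕜 (range x)).topologicalClosure) = 0 := rfl
      rw [this, map_zero]
    | add a b ha hb iha ihb =>
      filter_upwards [iha, ihb] with n h1 h2
      have : (⟨a + b, hle (Submodule.add_mem _ ha hb)⟩ :
        (Submodule.span 𝕜 (range x)).topologicalClosure) = ⟨a, hle ha⟩ + ⟨b, hle hb⟩ := rfl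
      rw [this, map_add, h1, h2, add_zero]
    | smul c a ha iha =>
      filter_upwards [iha] with n h1
      have : (⟨c • a, hle (Submodule.smul_mem _ c ha)⟩ :
        (Submodule.span 𝕜 (range x)).topologicalClosure) = c • ⟨a, hle ha⟩ := rfl
      rw [this, map_smul, h1, smul_zero]
  rw [Metric.tendsto_atTop]
  intro ε hε
  have hy : (y : E) ∈ closure (Submodule.span 𝕜 (range x) : Set E) := y.2
  obtain ⟨z, hz, hzy⟩ := Metric.mem_closure_iff.1 hy (ε / (C + 1)) (by positivity)
  obtain ⟨N, hN⟩ := eventually_atTop.1 (hfin z hz)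
  refine ⟨N, fun n hn => ?_⟩
  rw [dist_zero_right]
  have h1 : φ n y = φ n (y - ⟨z, hle hz⟩) := by
    rw [map_sub, hN n hn, sub_zero]
  rw [h1]
  have h2 : ‖(y - ⟨z, hle hz⟩ : (Submodule.span 𝕜 (range x)).topologicalClosure)‖ < ε / (C + 1) := by
    rw [dist_eq_norm] at hzy
    exact hzy
  refine ((φ n).le_opNorm _).trans_lt ?_
  calc ‖φ n‖ * ‖(y - ⟨z, hle hz⟩ : (Submodule.span 𝕜 (range x)).topologicalClosure)‖
      ≤ C * (ε / (C + 1)) := mul_le_mul (hC n) h2.le (norm_nonneg _) hC0
    _ < ε := by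
      rw [mul_div_assoc', div_lt_iff₀ (by positivity)]
      nlinarith

theorem main_aux [TopologicalSpace.SeparableSpace E] (x : ℕ → E) (Y : Submodule 𝕜 E)
    (hxY : ∀ j, x j ∈ Y) (φ : ℕ → Y →L[𝕜] 𝕜)
    (C : ℝ) (hC : ∀ n, ‖φ n‖ ≤ C)
    (hφ : ∀ i j, φ i ⟨x j, hxY j⟩ = if i = j then 1 else 0)
    (hnull : ∀ y : Y, Tendsto (fun n => φ n y) atTop (𝓝 0))
    (ε : ℝ) (hε : 0 < ε) :
    ∃ f : ℕ → E →L[𝕜] 𝕜,
      (∀ n (y : Y), f n y = φ n y) ∧
      (∀ n, ‖f n‖ ≤ 2 * C + ε) ∧
      Dense {z : E | ∃ y ∈ Y, ∃ w : E, (∀ n, f n w = 0) ∧ y + w = z} := by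
  classical
  obtain ⟨F, hF1, hF2, hF3⟩ := sobczyk Y φ C hC hnull
  have : Nonempty E := ⟨0⟩
  let e : ℕ → E := TopologicalSpace.denseSeq E
  have he : DenseRange e := TopologicalSpace.denseRange_denseSeq E
  let V : ℕ → Submodule 𝕜 E := fun k =>
    (Y ⊔ Submodule.span 𝕜 (e '' {j | j < k})).topologicalClosure
  have hVcl : ∀ k, IsClosed (V k : Set E) := fun k => Submodule.isClosed_topologicalClosure _
  have hYV : ∀ k, Y ≤ V k := fun k => le_sup_left.trans (Submodule.le_topologicalClosure _)
  have heV : ∀ j k, j < k → e j ∈ V k := fun j k hjk =>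
    Submodule.le_topologicalClosure _ (Submodule.mem_sup_right
      (Submodule.subset_span ⟨j, hjk, rfl⟩))
  have hVmono : ∀ j k, j ≤ k → V j ≤ V k := by
    intro j k hjk
    refine Submodule.topologicalClosure_mono (sup_le_sup le_rfl (Submodule.span_mono ?_))
    exact image_mono fun i hi => lt_of_lt_of_le hi hjk
  -- the recursion
  let S := {f : ℕ → E →L[𝕜] 𝕜 // ∀ z, Tendsto (fun n => f n z) atTop (𝓝 0)}
  have hstep : ∀ (k : ℕ) (s : S), ∃ s' : S, (∀ n, ∀ v ∈ V k, s'.1 n v = s.1 n v) ∧
      (∀ n, ‖s'.1 n - s.1 n‖ ≤ ε / 2 ^ (k + 1)) ∧ (∀ n ≤ k, s'.1 n = s.1 n) ∧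
      (e k ∈ V k ∨ ∀ᶠ n in atTop, s'.1 n (e k) = 0) := by
    intro k s
    obtain ⟨f', h1, h2, h3, h4, h5⟩ := step s.1 s.2 (V k) (hVcl k) (e k) (ε / 2 ^ (k + 1))
      (by positivity) k
    exact ⟨⟨f', h2⟩, h1, h3, h4, h5⟩
  choose next hn1 hn2 hn3 hn4 using hstep
  let s : ℕ → S := fun k => Nat.rec ⟨F, hF3⟩ (fun k t => next k t) k
  have hs0 : s 0 = ⟨F, hF3⟩ := rfl
  have hss : ∀ k, s (k + 1) = next k (s k) := fun k => rfl
  -- agreement on `V k`
  have hagree : ∀ k m, k ≤ m → ∀ n, ∀ v ∈ V k, (s m).1 n v = (s k).1 n v := by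
    intro k m hkm
    induction m, hkm using Nat.le_induction with
    | base => intro n v _; rfl
    | succ m hkm ih =>
      intro n v hv
      rw [hss, hn1 m (s m) n v (hVmono k m hkm hv), ih n v hv]
  have hnorm : ∀ k n, ‖(s k).1 n - F n‖ ≤ ε * (1 - 1 / 2 ^ k) := by
    intro k n
    induction k with
    | zero => rw [hs0]; simp
    | succ k ih =>
      have h1 := hn2 k (s k) n
      rw [← hss] at h1
      have h2 : (s (k + 1)).1 n - F n = ((s (k + 1)).1 n - (s k).1 n) + ((s k).1 n - F n) := by
        abel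
      rw [h2]
      refine (norm_add_le _ _).trans ((add_le_add h1 ih).trans (le_of_eq ?_))
      field_simp
      ring
  have hstab : ∀ n m, n ≤ m → (s m).1 n = (s n).1 n := by
    intro n m hnm
    induction m, hnm using Nat.le_induction with
    | base => rfl
    | succ m hnm ih => rw [hss, hn3 m (s m) n hnm, ih]
  let f : ℕ → E →L[𝕜] 𝕜 := fun n => (s n).1 n
  have hfm : ∀ n m, n ≤ m → f n = (s m).1 n := fun n m h => (hstab n m h).symm
  have hfY : ∀ n (y : Y), f n y = φ n y := by
    intro n y
    have h1 := hagree 0 n (Nat.zero_le _) n y (hYV 0 y.2)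
    show (s n).1 n y = φ n y
    rw [h1, hs0]
    exact hF1 n y
  have hfx : ∀ i j, f i (x j) = if i = j then 1 else 0 := by
    intro i j
    rw [← hφ i j]
    exact hfY i ⟨x j, hxY j⟩
  refine ⟨f, hfY, ?_, ?_⟩
  · intro n
    have h1 : f n = F n + ((s n).1 n - F n) := by
      show (s n).1 n = _
      abel
    rw [h1]
    refine (norm_add_le _ _).trans (add_le_add (hF2 n) ((hnorm n n).trans ?_))
    have : (0 : ℝ) < 1 / 2 ^ n := by positivity
    nlinarith
  · -- density
    let W : Submodule 𝕜 E :=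
      { carrier := {z : E | ∃ y ∈ Y, ∃ w : E, (∀ n, f n w = 0) ∧ y + w = z}
        zero_mem' := ⟨0, Y.zero_mem, 0, fun n => map_zero _, add_zero _⟩
        add_mem' := by
          rintro a b ⟨y, hy, w, hw, rfl⟩ ⟨y', hy', w', hw', rfl⟩
          exact ⟨y + y', Y.add_mem hy hy', w + w', fun n => by rw [map_add, hw, hw', add_zero],
            by abel⟩
        smul_mem' := by
          rintro c a ⟨y, hy, w, hw, rfl⟩
          exact ⟨c • y, Y.smul_mem c hy, c • w, fun n => by rw [map_smul, hw, smul_zero],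
            (smul_add c y w).symm⟩ }
    have hWY : Y ≤ W.topologicalClosure := by
      refine le_trans ?_ (Submodule.le_topologicalClosure _)
      intro y hy
      exact ⟨y, hy, 0, fun n => map_zero _, add_zero _⟩
    have heW : ∀ k, e k ∈ W.topologicalClosure := by
      intro k
      induction k using Nat.strong_induction_on with
      | _ k ih =>
        rcases hn4 k (s k) with h | h
        · have h1 : V k ≤ W.topologicalClosure := by
            refine Submodule.topologicalClosure_minimal _ (sup_le hWY ?_)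
              (Submodule.isClosed_topologicalClosure _)
            rw [Submodule.span_le]
            rintro _ ⟨j, hj, rfl⟩
            exact ih j hj
          exact h1 h
        · rw [← hss] at h
          obtain ⟨N, hN⟩ := eventually_atTop.1 h
          have h2 : ∀ n, N ≤ n → f n (e k) = 0 := by
            intro n hn
            rw [hfm n (max n (k + 1)) (le_max_left _ _),
              hagree (k + 1) (max n (k + 1)) (le_max_right _ _) n (e k)
                (heV k (k + 1) (Nat.lt_succ_self k))]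
            exact hN n hn
          refine Submodule.le_topologicalClosure _ ?_
          let y : E := ∑ m ∈ Finset.range N, f m (e k) • x m
          refine ⟨y, Submodule.sum_mem _ fun m _ => Y.smul_mem _ (hxY m), e k - y, ?_, by abel⟩
          intro n
          have h3 : f n y = if n < N then f n (e k) else 0 := by
            simp only [y, map_sum, map_smul, hfx, smul_eq_mul, mul_ite, mul_one, mul_zero]
            rw [Finset.sum_ite_eq]
            simp
          rw [map_sub, h3]
          split_ifs with h4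
          · exact sub_self _
          · rw [h2 n (by omega), sub_zero]
    have htop : (W.topologicalClosure : Set E) = univ := by
      have h1 : closure (range e) ⊆ (W.topologicalClosure : Set E) :=
        closure_minimal (by rintro _ ⟨k, rfl⟩; exact heW k)
          (Submodule.isClosed_topologicalClosure _)
      rw [he.closure_range] at h1
      exact eq_univ_of_univ_subset h1
    have h2 : (W.topologicalClosure : Set E) = closure (W : Set E) :=
      Submodule.topologicalClosure_coe W
    have h3 : Dense (W : Set E) := by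
      rw [dense_iff_closure_eq, ← h2, htop]
    exact h3

theorem main [TopologicalSpace.SeparableSpace E] (x : ℕ → E)
    (φ : ℕ → (Submodule.span 𝕜 (range x)).topologicalClosure →L[𝕜] 𝕜)
    (C : ℝ) (hC : ∀ n, ‖φ n‖ ≤ C)
    (hφ : ∀ i j, ∀ h : x j ∈ (Submodule.span 𝕜 (range x)).topologicalClosure,
      φ i ⟨x j, h⟩ = if i = j then 1 else 0)
    (ε : ℝ) (hε : 0 < ε) :
    ∃ f : ℕ → E →L[𝕜] 𝕜,
      (∀ n (y : (Submodule.span 𝕜 (range x)).topologicalClosure), f n y = φ n y) ∧
      (∀ n, ‖f n‖ ≤ 2 * C + ε) ∧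
      Dense {z : E | ∃ y ∈ (Submodule.span 𝕜 (range x)).topologicalClosure,
        ∃ w : E, (∀ n, f n w = 0) ∧ y + w = z} :=
  main_aux x _ (fun j => Submodule.le_topologicalClosure _
    (Submodule.subset_span (Set.mem_range_self j))) φ C hC
    (fun i j => hφ i j _) (null_on_span x φ C hC hφ) ε hε

end Pool.Agent.Helper77K9.SobB
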