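import Mathlib

/-!
# Sobczyk extensions and extensions of biorthogonal functionals with dense sum
-/

set_option autoImplicit false

open Filter Topology Set

namespace Pool.Agent.Helper77K9.SobB

universe u v

variable {𝕜 : Type v} [RCLike 𝕜] {E : Type u} [NormedAddCommGroup E] [NormedSpace 𝕜 E]

/-- A functional vanishing on a closed subspace and equal to one at a point outside of it. -/
theorem exists_functional (V : Submodule 𝕜 E) (hV : IsClosed (V : Set E)) (e : E) (he : e ∉ V) :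
    ∃ u : E →L[𝕜] 𝕜, (∀ v ∈ V, u v = 0) ∧ u e = 1 := by
  have : IsClosed (V : Set E) := hV
  have h0 : ‖(V.mkQL e)‖ ≠ 0 := by
    rw [norm_ne_zero_iff]
    intro h
    exact he ((Submodule.Quotient.mk_eq_zero V).1 h)
  obtain ⟨g, -, hg⟩ := exists_dual_vector 𝕜 (V.mkQL e) h0
  refine ⟨((‖V.mkQL e‖ : 𝕜)⁻¹) • (g.comp V.mkQL), ?_, ?_⟩
  · intro v hv
    have : V.mkQL v = 0 := (Submodule.Quotient.mk_eq_zero V).2 hv
    simp [this]
  · have h1 : ((‖V.mkQL e‖ : ℝ) : 𝕜) ≠ 0 := by exact_mod_cast h0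
    simp only [_root_.smul_apply, ContinuousLinearMap.comp_apply, smul_eq_mul]
    rw [hg]
    exact inv_mul_cancel₀ h1

/-- pointwise null sequences of functionals, from a dense set -/
theorem tendsto_of_dense {F : ℕ → E →L[𝕜] 𝕜} {C : ℝ} (hC : ∀ n, ‖F n‖ ≤ C) {e : ℕ → E}
    (he : DenseRange e) (h : ∀ j, Tendsto (fun n => F n (e j)) atTop (𝓝 0)) (z : E) :
    Tendsto (fun n => F n z) atTop (𝓝 0) := by
  have hC0 : 0 ≤ C := (norm_nonneg _).trans (hC 0)
  rw [Metric.tendsto_atTop]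
  intro ε hε
  obtain ⟨j, hj⟩ := he.exists_dist_lt z (show 0 < ε / (2 * (C + 1)) by positivity)
  obtain ⟨N, hN⟩ := (Metric.tendsto_atTop.1 (h j)) (ε / 2) (by positivity)
  refine ⟨N, fun n hn => ?_⟩
  have h1 := hN n hn
  rw [dist_zero_right] at h1 ⊢
  have h2 : F n z = F n (e j) + F n (z - e j) := by rw [map_sub]; ring
  rw [h2]
  have h3 : ‖F n (z - e j)‖ ≤ C * (ε / (2 * (C + 1))) := by
    refine ((F n).le_opNorm _).trans ?_
    rw [dist_eq_norm] at hj
    exact mul_le_mul (hC n) hj.le (norm_nonneg _) hC0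
  have h4 : C * (ε / (2 * (C + 1))) < ε / 2 := by
    rw [mul_div_assoc', div_lt_div_iff₀ (by positivity) (by norm_num)]
    nlinarith
  calc ‖F n (e j) + F n (z - e j)‖ ≤ ‖F n (e j)‖ + ‖F n (z - e j)‖ := norm_add_le _ _
    _ < ε / 2 + ε / 2 := by linarith
    _ = ε := by ring

/-- One step of the construction: kill the coordinates of `e` from some point on. -/
theorem step (f : ℕ → E →L[𝕜] 𝕜) (hf : ∀ z, Tendsto (fun n => f n z) atTop (𝓝 0))
    (V : Submodule 𝕜 E) (hV : IsClosed (V : Set E)) (e : E) (ε : ℝ) (hε : 0 < ε) (K : ℕ) :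
    ∃ f' : ℕ → E →L[𝕜] 𝕜, (∀ n, ∀ v ∈ V, f' n v = f n v) ∧
      (∀ z, Tendsto (fun n => f' n z) atTop (𝓝 0)) ∧ (∀ n, ‖f' n - f n‖ ≤ ε) ∧
      (∀ n ≤ K, f' n = f n) ∧ (e ∈ V ∨ ∀ᶠ n in atTop, f' n e = 0) := by
  by_cases he : e ∈ V
  · exact ⟨f, fun _ _ _ => rfl, hf, fun n => by simpa using hε.le, fun _ _ => rfl, Or.inl he⟩
  obtain ⟨u, hu0, hu1⟩ := exists_functional V hV e he
  have h1 : Tendsto (fun n => ‖f n e‖ * ‖u‖) atTop (𝓝 0) := by
    have := (tendsto_norm_zero.comp (hf e)).mul_const ‖u‖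
    simpa using this
  obtain ⟨N, hN⟩ := eventually_atTop.1 ((h1.eventually (gt_mem_nhds hε)).and
    (eventually_gt_atTop K))
  refine ⟨fun n => if N ≤ n then f n - (f n e) • u else f n, ?_, ?_, ?_, ?_, Or.inr ?_⟩
  · intro n v hv
    dsimp only
    split_ifs
    · simp [hu0 v hv]
    · rfl
  · intro z
    have h2 : Tendsto (fun n => f n z - f n e * u z) atTop (𝓝 0) := by
      have := (hf z).sub ((hf e).mul_const (u z))
      simpa using this
    refine h2.congr' ?_
    filter_upwards [eventually_ge_atTop N] with n hn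
    simp [hn]
  · intro n
    dsimp only
    split_ifs with hn
    · have h3 := (hN n hn).1
      have : f n - (f n e) • u - f n = -((f n e) • u) := by abel
      rw [this, norm_neg, norm_smul]
      exact h3.le
    · simpa using hε.le
  · intro n hn
    have : ¬ N ≤ n := fun h => absurd (hN n h).2 (by omega)
    simp [this]
  · filter_upwards [eventually_ge_atTop N] with n hn
    simp [hn, hu1]

/-- **Sobczyk's theorem** (Veech's proof), for a weakly null sequence of functionals on a subspace. -/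
theorem sobczyk [TopologicalSpace.SeparableSpace E] (Y : Submodule 𝕜 E) (φ : ℕ → Y →L[𝕜] 𝕜)
    (C : ℝ) (hC : ∀ n, ‖φ n‖ ≤ C) (hφ : ∀ y : Y, Tendsto (fun n => φ n y) atTop (𝓝 0)) :
    ∃ F : ℕ → E →L[𝕜] 𝕜, (∀ n (y : Y), F n y = φ n y) ∧ (∀ n, ‖F n‖ ≤ 2 * C) ∧
      ∀ z, Tendsto (fun n => F n z) atTop (𝓝 0) := by
  classical
  have hC0 : 0 ≤ C := (norm_nonneg _).trans (hC 0)
  have hHB : ∀ n, ∃ H : E →L[𝕜] 𝕜, (∀ y : Y, H y = φ n y) ∧ ‖H‖ = ‖φ n‖ := fun n =>
    exists_extension_norm_eq Y (φ n)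
  choose H hH1 hH2 using hHB
  have hHC : ∀ n, ‖H n‖ ≤ C := fun n => (hH2 n).le.trans (hC n)
  have : Nonempty E := ⟨0⟩
  let e : ℕ → E := TopologicalSpace.denseSeq E
  have he : DenseRange e := TopologicalSpace.denseRange_denseSeq E
  let P : ℕ → ℕ → Prop := fun N n => ∃ h : E →L[𝕜] 𝕜, ‖h‖ ≤ C ∧ (∀ y ∈ Y, h y = 0) ∧
    ∀ j ≤ N, ‖H n (e j) - h (e j)‖ ≤ 1 / (N + 1)
  have hP : ∀ N, ∀ᶠ n in atTop, P N n := by
    intro N
    by_contra hcon
    rw [not_eventually] at hcon
    have hne : (atTop ⊓ 𝓟 {n | ¬ P N n}).NeBot := by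
      rwa [← frequently_mem_iff_neBot]
    obtain ⟨𝒰, h𝒰⟩ := Filter.exists_ultrafilter_le (atTop ⊓ 𝓟 {n | ¬ P N n})
    have h𝒰1 : (𝒰 : Filter ℕ) ≤ atTop := h𝒰.trans inf_le_left
    have h𝒰2 : ∀ᶠ n in (𝒰 : Filter ℕ), ¬ P N n := h𝒰.trans inf_le_right (mem_principal_self _)
    let B : Set (WeakDual 𝕜 E) := WeakDual.toStrongDual ⁻¹' Metric.closedBall 0 C
    have hB : IsCompact B := WeakDual.isCompact_closedBall 0 C
    let Hw : ℕ → WeakDual 𝕜 E := fun n => StrongDual.toWeakDual (H n)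
    have hHB : ∀ n, Hw n ∈ B := by
      intro n
      show H n ∈ Metric.closedBall (0 : StrongDual 𝕜 E) C
      rw [mem_closedBall_zero_iff]
      exact hHC n
    obtain ⟨h, hhB, hlim⟩ := hB.ultrafilter_le_nhds (𝒰.map Hw)
      (by
        rw [Filter.le_principal_iff]
        exact Filter.mem_map.2 (Filter.univ_mem' hHB))
    have hlim' : Tendsto Hw (𝒰 : Filter ℕ) (𝓝 h) := hlim
    have hev : ∀ z : E, Tendsto (fun n => H n z) (𝒰 : Filter ℕ) (𝓝 (h z)) := by
      intro z
      exact ((WeakDual.eval_continuous z).tendsto h).comp hlim'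
    let h' : E →L[𝕜] 𝕜 := WeakDual.toStrongDual h
    have hh' : ∀ z, h' z = h z := fun _ => rfl
    have hgood : ∀ᶠ n in (𝒰 : Filter ℕ), P N n := by
      have h1 : ∀ j ∈ Finset.range (N + 1), ∀ᶠ n in (𝒰 : Filter ℕ),
          ‖H n (e j) - h' (e j)‖ < 1 / ((N : ℝ) + 1) := by
        intro j _
        have h2 := (hev (e j)).sub_const (h' (e j))
        rw [hh', sub_self] at h2
        have h3 := (tendsto_norm_zero.comp h2).eventually
          (gt_mem_nhds (show (0 : ℝ) < 1 / ((N : ℝ) + 1) by positivity))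
        exact h3
      have h4 := (Finset.eventually_all _).2 h1
      filter_upwards [h4] with n hn
      refine ⟨h', ?_, ?_, ?_⟩
      · have : h' ∈ Metric.closedBall (0 : StrongDual 𝕜 E) C := hhB
        rwa [mem_closedBall_zero_iff] at this
      · intro y hy
        have h5 : Tendsto (fun n => H n y) (𝒰 : Filter ℕ) (𝓝 0) := by
          have := (hφ ⟨y, hy⟩).mono_left h𝒰1
          refine this.congr fun n => ?_
          exact (hH1 n ⟨y, hy⟩).symm
        exact tendsto_nhds_unique (hev y) h5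
      · intro j hj
        exact (hn j (Finset.mem_range.2 (by omega))).le
    obtain ⟨n, hn1, hn2⟩ := (hgood.and h𝒰2).exists
    exact hn2 hn1
  -- choose the largest admissible precision
  let Nn : ℕ → ℕ := fun n => Nat.findGreatest (fun N => P N n) n
  let g : ℕ → E →L[𝕜] 𝕜 := fun n => if h : P (Nn n) n then h.choose else 0
  have hg1 : ∀ n, ‖g n‖ ≤ C := by
    intro n
    by_cases h : P (Nn n) n
    · simp only [g, dif_pos h]; exact h.choose_spec.1
    · simp only [g, dif_neg h, norm_zero]; exact hC0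
  have hg2 : ∀ n, ∀ y ∈ Y, g n y = 0 := by
    intro n y hy
    by_cases h : P (Nn n) n
    · simp only [g, dif_pos h]; exact h.choose_spec.2.1 y hy
    · simp only [g, dif_neg h]; rfl
  refine ⟨fun n => H n - g n, ?_, ?_, ?_⟩
  · intro n y
    simp [hH1 n y, hg2 n y y.2]
  · intro n
    refine (norm_sub_le _ _).trans ?_
    linarith [hHC n, hg1 n]
  · refine tendsto_of_dense (C := 2 * C) (fun n => ?_) he ?_
    · refine (norm_sub_le _ _).trans ?_
      linarith [hHC n, hg1 n]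
    · intro j
      rw [Metric.tendsto_atTop]
      intro ε hε
      obtain ⟨M, hM⟩ := exists_nat_gt (1 / ε)
      let N := max j M
      obtain ⟨n₀, hn₀⟩ := eventually_atTop.1 (hP N)
      refine ⟨max n₀ N, fun n hn => ?_⟩
      have h1 : P N n := hn₀ n ((le_max_left _ _).trans hn)
      have h2 : N ≤ n := (le_max_right _ _).trans hn
      have h3 : N ≤ Nn n := Nat.le_findGreatest h2 h1
      have h4 : P (Nn n) n := Nat.findGreatest_spec (P := fun N => P N n) h2 h1
      have h5 : ‖H n (e j) - g n (e j)‖ ≤ 1 / ((Nn n : ℝ) + 1) := by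
        simp only [g, dif_pos h4]
        exact h4.choose_spec.2.2 j ((le_max_left _ _).trans h3)
      rw [dist_zero_right]
      have h6 : (H n - g n) (e j) = H n (e j) - g n (e j) := rfl
      rw [h6]
      refine h5.trans_lt ?_
      have h7 : (M : ℝ) ≤ Nn n := by exact_mod_cast (le_max_right j M).trans h3
      have h8 : 1 / ε < (Nn n : ℝ) + 1 := by linarith
      rw [div_lt_iff₀ (by positivity)]
      rw [div_lt_iff₀ hε] at h8
      linarith

end Pool.Agent.Helper77K9.SobB
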